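import Pool.Agent.Helper76.DIL.Defs

set_option autoImplicit false

namespace Pool.Agent.Helper76.DIL

open Finset MvPolynomial

section Hom

variable {R : Type} [CommRing R] {m : ℕ} (a u v : Fin m → ℤ)

lemma root_sq (i : Fin m) : root R a i ^ 2 = ((a i : ℤ) : Roots R a) := by
  unfold root
  have h1 : (X i ^ 2 - C (a i : R) : MvPolynomial (Fin m) R) ∈
      Ideal.span (Set.range fun i : Fin m => (X i ^ 2 - C (a i : R) : MvPolynomial (Fin m) R)) :=
    Ideal.subset_span ⟨i, rfl⟩
  have h2 := (Ideal.Quotient.eq_zero_iff_mem).2 h1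
  rw [map_sub, map_pow, sub_eq_zero] at h2
  rw [h2, map_intCast, map_intCast]

lemma le_ker {p : ℕ} (φ : R →+* ZMod p) (s : Fin m → ZMod p)
    (hs : ∀ i, s i ^ 2 = (a i : ZMod p)) :
    Ideal.span (Set.range fun i : Fin m =>
      (X i ^ 2 - C (a i : R) : MvPolynomial (Fin m) R)) ≤ RingHom.ker (eval₂Hom φ s) := by
  rw [Ideal.span_le]
  rintro _ ⟨i, rfl⟩
  rw [SetLike.mem_coe, RingHom.mem_ker]
  simp only [map_sub, map_pow, coe_eval₂Hom, eval₂_X, eval₂_C]
  rw [hs i, map_intCast, sub_self]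

/-- The homomorphism given by the images of the roots. -/
noncomputable def liftHom {p : ℕ} (φ : R →+* ZMod p) (s : Fin m → ZMod p)
    (hs : ∀ i, s i ^ 2 = (a i : ZMod p)) : Roots R a →+* ZMod p :=
  Ideal.Quotient.lift _ (eval₂Hom φ s) fun _ hx => le_ker a φ s hs hx

lemma liftHom_incl {p : ℕ} (φ : R →+* ZMod p) (s : Fin m → ZMod p)
    (hs : ∀ i, s i ^ 2 = (a i : ZMod p)) : (liftHom a φ s hs).comp (incl R a) = φ := by
  ext x
  have h1 : liftHom a φ s hs (incl R a x) = eval₂Hom φ s (C x) := rfl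
  rw [RingHom.comp_apply, h1, coe_eval₂Hom, eval₂_C]

lemma liftHom_root {p : ℕ} (φ : R →+* ZMod p) (s : Fin m → ZMod p)
    (hs : ∀ i, s i ^ 2 = (a i : ZMod p)) (i : Fin m) : liftHom a φ s hs (root R a i) = s i := by
  have h1 : liftHom a φ s hs (root R a i) = eval₂Hom φ s (X i) := rfl
  rw [h1, coe_eval₂Hom, eval₂_X]

lemma hom_ext' {p : ℕ} {φ ψ : Roots R a →+* ZMod p} (h1 : φ.comp (incl R a) = ψ.comp (incl R a))
    (h2 : ∀ i, φ (root R a i) = ψ (root R a i)) : φ = ψ := by
  apply Ideal.Quotient.ringHom_ext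
  apply MvPolynomial.ringHom_ext
  · intro r
    exact congrArg (fun g : R →+* ZMod p => g r) h1
  · intro i
    exact h2 i

/-- The homomorphisms from `R[√a₁, …, √aₘ]`. -/
noncomputable def homEquiv (p : ℕ) :
    (Roots R a →+* ZMod p) ≃
      {z : (R →+* ZMod p) × (Fin m → ZMod p) // ∀ i, z.2 i ^ 2 = (a i : ZMod p)} where
  toFun φ := ⟨(φ.comp (incl R a), fun i => φ (root R a i)), by
    intro i
    dsimp only
    rw [← map_pow, root_sq, map_intCast]⟩
  invFun z := liftHom a z.1.1 z.1.2 z.2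
  left_inv φ := by
    apply hom_ext'
    · rw [liftHom_incl]
    · intro i
      rw [liftHom_root]
  right_inv z := by
    apply Subtype.ext
    apply Prod.ext
    · dsimp only
      rw [liftHom_incl]
    · funext i
      dsimp only
      rw [liftHom_root]

/-- The image of `δ`. -/
lemma map_delta {p : ℕ} (φ : Roots R a →+* ZMod p) :
    φ (delta R a u v) = ∏ i, ((u i : ZMod p) + (v i : ZMod p) * φ (root R a i)) := by
  unfold delta
  rw [map_prod]
  refine Finset.prod_congr rfl fun i _ => ?_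
  rw [map_add, map_mul, map_intCast, map_intCast]

end Hom

section Roots

variable {p : ℕ} [Fact p.Prime]

/-- The sum of the symbols of `u + v s` over the square roots `s` of `b`. -/
noncomputable def inner (b u v : ℤ) : ℤ :=
  ∑ s ∈ (univ : Finset (ZMod p)).filter fun s => s ^ 2 = (b : ZMod p),
    quadraticChar (ZMod p) ((u : ZMod p) + (v : ZMod p) * s)

lemma abs_quadraticChar_le (x : ZMod p) : |quadraticChar (ZMod p) x| ≤ 1 := by
  by_cases hx : x = 0
  · rw [hx, quadraticChar_zero, abs_zero]; exact zero_le_one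
  · rcases quadraticChar_dichotomy (F := ZMod p) hx with h | h
    · rw [h, abs_one]
    · rw [h, abs_neg, abs_one]

lemma card_roots_le (b : ZMod p) :
    ((univ : Finset (ZMod p)).filter fun s => s ^ 2 = b).card ≤ 2 := by
  classical
  by_cases hne : ((univ : Finset (ZMod p)).filter fun s => s ^ 2 = b).Nonempty
  · obtain ⟨s, hs⟩ := hne
    have hs2 : s ^ 2 = b := (Finset.mem_filter.1 hs).2
    have hsub : ((univ : Finset (ZMod p)).filter fun s => s ^ 2 = b) ⊆ {s, -s} := by
      intro t ht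
      have ht2 : t ^ 2 = b := (Finset.mem_filter.1 ht).2
      rw [Finset.mem_insert, Finset.mem_singleton]
      exact sq_eq_sq_iff_eq_or_eq_neg.1 (ht2.trans hs2.symm)
    exact (Finset.card_le_card hsub).trans Finset.card_le_two
  · rw [Finset.not_nonempty_iff_eq_empty.1 hne, Finset.card_empty]
    exact Nat.zero_le _

lemma abs_inner_le (b u v : ℤ) : |(inner (p := p) b u v : ℤ)| ≤ 2 := by
  unfold inner
  calc _ ≤ ∑ s ∈ (univ : Finset (ZMod p)).filter fun s => s ^ 2 = (b : ZMod p),
        |quadraticChar (ZMod p) ((u : ZMod p) + (v : ZMod p) * s)| := Finset.abs_sum_le_sum_abs _ _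
    _ ≤ ∑ s ∈ (univ : Finset (ZMod p)).filter fun s => s ^ 2 = (b : ZMod p), 1 :=
        Finset.sum_le_sum fun s _ => abs_quadraticChar_le _
    _ = (((univ : Finset (ZMod p)).filter fun s => s ^ 2 = (b : ZMod p)).card : ℤ) := by
        rw [Finset.sum_const, nsmul_eq_mul, mul_one]
    _ ≤ 2 := by exact_mod_cast card_roots_le (b : ZMod p)

/-- The inner sum vanishes unless both `b` and `u ^ 2 - b * v ^ 2` are squares modulo `p`. -/
lemma inner_eq_zero (hp : p ≠ 2) {b u v : ℤ} (hb : ((b : ℤ) : ZMod p) ≠ 0)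
    (hc : ((u ^ 2 - b * v ^ 2 : ℤ) : ZMod p) ≠ 0)
    (h : ¬ (jacobiSym b p = 1 ∧ jacobiSym (u ^ 2 - b * v ^ 2) p = 1)) :
    inner (p := p) b u v = 0 := by
  classical
  have hF : ringChar (ZMod p) ≠ 2 := by rw [ZMod.ringChar_zmod_n]; exact hp
  have hj : ∀ z : ℤ, jacobiSym z p = quadraticChar (ZMod p) (z : ZMod p) := by
    intro z
    rw [← jacobiSym.legendreSym.to_jacobiSym]
    rfl
  unfold inner
  by_cases hne : ((univ : Finset (ZMod p)).filter fun s => s ^ 2 = (b : ZMod p)).Nonempty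
  · obtain ⟨s, hs⟩ := hne
    have hs2 : s ^ 2 = (b : ZMod p) := (Finset.mem_filter.1 hs).2
    have hs0 : s ≠ 0 := by
      rintro rfl
      apply hb
      rw [← hs2]
      ring
    have h2 : (2 : ZMod p) ≠ 0 := Ring.two_ne_zero hF
    have hsn : s ≠ -s := by
      intro h3
      apply hs0
      have h4 : (2 : ZMod p) * s = 0 := by
        linear_combination h3
      rcases mul_eq_zero.1 h4 with h5 | h5
      · exact absurd h5 h2
      · exact h5
    have hset : ((univ : Finset (ZMod p)).filter fun t => t ^ 2 = (b : ZMod p)) = {s, -s} := by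
      ext t
      rw [Finset.mem_filter, Finset.mem_insert, Finset.mem_singleton]
      constructor
      · rintro ⟨_, ht⟩
        exact sq_eq_sq_iff_eq_or_eq_neg.1 (ht.trans hs2.symm)
      · rintro (rfl | rfl)
        · exact ⟨Finset.mem_univ _, hs2⟩
        · refine ⟨Finset.mem_univ _, ?_⟩
          rw [neg_sq]
          exact hs2
    rw [hset, Finset.sum_pair hsn]
    have hb1 : jacobiSym b p = 1 := by
      rw [hj, ← hs2, map_pow]
      exact quadraticChar_sq_one (F := ZMod p) hs0
    have hcn : quadraticChar (ZMod p) ((u ^ 2 - b * v ^ 2 : ℤ) : ZMod p) = -1 := by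
      rcases quadraticChar_dichotomy (F := ZMod p) hc with h3 | h3
      · exact absurd ⟨hb1, (hj _).trans h3⟩ h
      · exact h3
    have hprod : quadraticChar (ZMod p) ((u : ZMod p) + (v : ZMod p) * s) *
        quadraticChar (ZMod p) ((u : ZMod p) + (v : ZMod p) * -s) = -1 := by
      rw [← map_mul, ← hcn]
      congr 1
      push_cast
      rw [← hs2]
      ring
    have ha1 := abs_quadraticChar_le ((u : ZMod p) + (v : ZMod p) * s)
    have ha2 := abs_quadraticChar_le ((u : ZMod p) + (v : ZMod p) * -s)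
    rw [abs_le] at ha1 ha2
    obtain ⟨x, hx⟩ : ∃ x, x = quadraticChar (ZMod p) ((u : ZMod p) + (v : ZMod p) * s) := ⟨_, rfl⟩
    obtain ⟨y, hy⟩ : ∃ y, y = quadraticChar (ZMod p) ((u : ZMod p) + (v : ZMod p) * -s) := ⟨_, rfl⟩
    rw [← hx] at ha1 hprod ⊢
    rw [← hy] at ha2 hprod ⊢
    obtain ⟨l1, r1⟩ := ha1
    obtain ⟨l2, r2⟩ := ha2
    interval_cases x <;> interval_cases y <;> omega
  · rw [Finset.not_nonempty_iff_eq_empty.1 hne, Finset.sum_empty]

end Roots

section Total

variable {p : ℕ} [Fact p.Prime] {m : ℕ} (a u v : Fin m → ℤ)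

/-- The sum of the symbols of `δ` over the choices of the square roots. -/
noncomputable def total : ℤ := ∏ i, inner (p := p) (a i) (u i) (v i)

lemma abs_total_le : |(total (p := p) a u v : ℤ)| ≤ 2 ^ m := by
  unfold total
  rw [Finset.abs_prod]
  calc _ ≤ ∏ _i : Fin m, (2 : ℤ) :=
        Finset.prod_le_prod (fun _ _ => abs_nonneg _) fun i _ => abs_inner_le _ _ _
    _ = 2 ^ m := by rw [Finset.prod_const, Finset.card_univ, Fintype.card_fin]

lemma total_eq_zero (hp : p ≠ 2) (ha : ∀ i, ((a i : ℤ) : ZMod p) ≠ 0)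
    (hc : ∀ i, ((norms a u v i : ℤ) : ZMod p) ≠ 0)
    (h : ¬ ∀ i, jacobiSym (a i) p = 1 ∧ jacobiSym (norms a u v i) p = 1) :
    total (p := p) a u v = 0 := by
  push Not at h
  obtain ⟨i, hi⟩ := h
  unfold total
  apply Finset.prod_eq_zero (Finset.mem_univ i)
  apply inner_eq_zero hp (ha i) (hc i)
  rintro ⟨h1, h2⟩
  exact hi h1 h2

lemma total_eq_sum : total (p := p) a u v =
    ∑ s ∈ Fintype.piFinset fun i => (univ : Finset (ZMod p)).filter fun s => s ^ 2 = (a i : ZMod p),
      quadraticChar (ZMod p) (∏ i, ((u i : ZMod p) + (v i : ZMod p) * s i)) := by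
  classical
  unfold total inner
  rw [Finset.prod_univ_sum]
  refine Finset.sum_congr rfl fun s _ => ?_
  rw [map_prod]

end Total

end Pool.Agent.Helper76.DIL
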