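import Pool.Agent.Helper25.FM.Defs

/-!
# Quadratic twists over multiquadratic extensions: the definitions
-/

set_option autoImplicit false

namespace Pool.Agent.Helper76.DIL

open MvPolynomial

/-- No product of some of the numbers `a i` and `c i` is a square, except the empty product: the
`2 m` numbers are independent modulo squares. -/
def Indep {m : ℕ} (a c : Fin m → ℤ) : Prop :=
  ∀ S T : Finset (Fin m), IsSquare ((∏ i ∈ S, a i) * ∏ i ∈ T, c i) → S = ∅ ∧ T = ∅

/-- The norm `u i ^ 2 - a i * v i ^ 2` of `u i + v i √(a i)`. -/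
def norms {m : ℕ} (a u v : Fin m → ℤ) : Fin m → ℤ := fun i => u i ^ 2 - a i * v i ^ 2

/-- The ring `R[√a₁, …, √aₘ]`, the quotient of the polynomial ring by the `x i ^ 2 - a i`. -/
abbrev Roots (R : Type) [CommRing R] {m : ℕ} (a : Fin m → ℤ) : Type :=
  MvPolynomial (Fin m) R ⧸
    Ideal.span (Set.range fun i : Fin m => (X i ^ 2 - C (a i : R) : MvPolynomial (Fin m) R))

/-- The map from `R` to `R[√a₁, …, √aₘ]`. -/
noncomputable def incl (R : Type) [CommRing R] {m : ℕ} (a : Fin m → ℤ) : R →+* Roots R a :=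
  (Ideal.Quotient.mk _).comp C

/-- The element `√aᵢ`. -/
noncomputable def root (R : Type) [CommRing R] {m : ℕ} (a : Fin m → ℤ) (i : Fin m) : Roots R a :=
  Ideal.Quotient.mk _ (X i)

/-- The element `δ`, the product of the `uᵢ + vᵢ √aᵢ`. -/
noncomputable def delta (R : Type) [CommRing R] {m : ℕ} (a u v : Fin m → ℤ) : Roots R a :=
  ∏ i, ((u i : Roots R a) + (v i : Roots R a) * root R a i)

/-- The primes of degree one of `R[√a₁, …, √aₘ]` above the primes of the set `P`. -/
def above {R : Type} [CommRing R] {m : ℕ} (a : Fin m → ℤ) (P : ∀ p : ℕ, Set (R →+* ZMod p)) :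
    ∀ p : ℕ, Set (Roots R a →+* ZMod p) :=
  fun p => {φ | φ.comp (incl R a) ∈ P p}

section Points

variable {R : Type} [CommRing R] {N c p : ℕ} [Fact p.Prime] (φ : R →+* ZMod p)
  (h : Fin c → MvPolynomial (Fin N) R)

/-- The number of points over the field with `p ^ r` elements of the projective scheme `W` defined
by the forms `h i`: the number of nonzero solutions divided by `p ^ r - 1`. -/
noncomputable def points (r : ℕ) : ℝ :=
  (Nat.card {x : Fin N → GaloisField p r // x ≠ 0 ∧
    ∀ i, eval₂ ((algebraMap (ZMod p) (GaloisField p r)).comp φ) x (h i) = 0} : ℝ) /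
    ((p : ℝ) ^ r - 1)

/-- The number of points over the field with `p ^ r` elements of the double cover `y ^ 2 = δ f (x)`
of `W`: the number of solutions `(x, y)` with `x` nonzero divided by `p ^ r - 1`. -/
noncomputable def coverPoints (δ : R) (f : MvPolynomial (Fin N) R) (r : ℕ) : ℝ :=
  (Nat.card {z : (Fin N → GaloisField p r) × GaloisField p r // z.1 ≠ 0 ∧
    (∀ i, eval₂ ((algebraMap (ZMod p) (GaloisField p r)).comp φ) z.1 (h i) = 0) ∧
    z.2 ^ 2 = algebraMap (ZMod p) (GaloisField p r) (φ δ) *
      eval₂ ((algebraMap (ZMod p) (GaloisField p r)).comp φ) z.1 f} : ℝ) /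
    ((p : ℝ) ^ r - 1)

end Points

/-- The average of the Tauberian Tate conjecture up to `T` over the primes of degree one of the
ring `R` in the set `P` which do not divide `B`: `β p φ` is the trace of Frobenius on the second
cohomology group at the kernel of the homomorphism `φ` to the field with `p` elements. -/
noncomputable def average {R : Type} [CommRing R] (P : ∀ p : ℕ, Set (R →+* ZMod p)) (B : ℤ)
    (β : ∀ p : ℕ, (R →+* ZMod p) → ℝ) (T : ℕ) : ℝ :=
  (∑ p ∈ (Finset.Icc 1 T).filter (fun p : ℕ => p.Prime ∧ ¬ (p : ℤ) ∣ B),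
    ∑ᶠ φ ∈ P p, β p φ * Real.log p / p) / T

/-- The number `2` times the product of the `a i` and of the norms of the `u i + v i √(a i)`. -/
def badNumber {m : ℕ} (a u v : Fin m → ℤ) : ℤ := 2 * ∏ i, a i * norms a u v i

/-- The traces of `W` over `R[√a₁, …, √aₘ]`. -/
noncomputable def restrict {R : Type} [CommRing R] {m : ℕ} (a : Fin m → ℤ)
    (β : ∀ p : ℕ, (R →+* ZMod p) → ℝ) : ∀ p : ℕ, (Roots R a →+* ZMod p) → ℝ :=
  fun p φ => β p (φ.comp (incl R a))

end Pool.Agent.Helper76.DIL
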