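import Pool.Agent.Helper76.DIL.Defs

set_option autoImplicit false

namespace Pool.Agent.Helper76.DIL

open Finset MvPolynomial

section Char

/-- The quadratic character of an extension on the prime field. -/
lemma quadraticChar_ext {p : ℕ} [Fact p.Prime] (hp : p ≠ 2) {r : ℕ} (hr : 1 ≤ r)
    [Fintype (GaloisField p r)] [DecidableEq (GaloisField p r)] {b : ZMod p} (hb : b ≠ 0) :
    quadraticChar (GaloisField p r) (algebraMap (ZMod p) (GaloisField p r) b) =
      quadraticChar (ZMod p) b ^ r := by
  have hodd : Odd p := (Fact.out : p.Prime).odd_of_ne_two hp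
  have hF : ringChar (ZMod p) ≠ 2 := by rw [ZMod.ringChar_zmod_n]; exact hp
  have hG : ringChar (GaloisField p r) ≠ 2 := by
    rw [ringChar.eq (GaloisField p r) p]; exact hp
  have hcard : Fintype.card (GaloisField p r) = p ^ r := by
    rw [← Nat.card_eq_fintype_card, GaloisField.card p r (by omega)]
  have hb' : algebraMap (ZMod p) (GaloisField p r) b ≠ 0 := by
    rw [Ne, map_eq_zero]; exact hb
  -- the exponent
  obtain ⟨S, hS⟩ : ∃ S : ℕ, S = ∑ i ∈ Finset.range r, p ^ i := ⟨_, rfl⟩
  have hpr : p ^ r / 2 = p / 2 * S := by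
    have h1 : S * (p - 1) + 1 = p ^ r := by
      have h2 := geom_sum_mul (p : ℤ) r
      have h3 : 1 ≤ p := (Fact.out : p.Prime).one_lt.le
      have h4 : ((S * (p - 1) + 1 : ℕ) : ℤ) = ((p ^ r : ℕ) : ℤ) := by
        rw [hS]
        push_cast [Nat.cast_sub h3]
        rw [h2]
        ring
      exact_mod_cast h4
    obtain ⟨k, hk⟩ := hodd
    have h6 : p / 2 = k := by omega
    have h7 : p - 1 = 2 * k := by omega
    rw [h7] at h1
    rw [h6, ← h1]
    have h8 : S * (2 * k) + 1 = 2 * (k * S) + 1 := by ring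
    rw [h8]
    omega
  have hSpar : ∀ r : ℕ, (∑ i ∈ Finset.range r, p ^ i) % 2 = r % 2 := by
    intro r
    induction r with
    | zero => simp
    | succ r ih =>
      rw [Finset.sum_range_succ, Nat.add_mod, ih]
      have h1 : p ^ r % 2 = 1 := Nat.odd_iff.1 hodd.pow
      rw [h1]
      omega
  have h1 : ((quadraticChar (GaloisField p r) (algebraMap (ZMod p) (GaloisField p r) b) : ℤ) :
      GaloisField p r) = ((quadraticChar (ZMod p) b ^ r : ℤ) : GaloisField p r) := by
    have h0 : b ^ (p / 2) = ((quadraticChar (ZMod p) b : ℤ) : ZMod p) := by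
      rw [quadraticChar_eq_pow_of_char_ne_two' hF, ZMod.card p]
    rw [quadraticChar_eq_pow_of_char_ne_two' hG, hcard, hpr, pow_mul, ← map_pow, h0, ← map_pow]
    have h2 : quadraticChar (ZMod p) b ^ S = quadraticChar (ZMod p) b ^ r := by
      have h3 := hSpar r
      rw [← hS] at h3
      rcases quadraticChar_dichotomy (F := ZMod p) hb with h4 | h4
      · rw [h4, one_pow, one_pow]
      · rw [h4]
        rcases Nat.even_or_odd r with h5 | h5
        · have h6 : Even S := by
            rw [Nat.even_iff] at h5 ⊢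
            omega
          rw [h5.neg_one_pow, h6.neg_one_pow]
        · have h6 : Odd S := by
            rw [Nat.odd_iff] at h5 ⊢
            omega
          rw [h5.neg_one_pow, h6.neg_one_pow]
    rw [← h2, map_pow]
    push_cast
    rw [map_intCast]
  rcases quadraticChar_dichotomy (F := GaloisField p r) hb' with h2 | h2 <;>
  rcases quadraticChar_dichotomy (F := ZMod p) hb with h3 | h3
  · rw [h2, h3, one_pow]
  · rw [h2, h3] at h1 ⊢
    rcases Nat.even_or_odd r with h5 | h5
    · rw [h5.neg_one_pow]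
    · rw [h5.neg_one_pow] at h1
      exfalso
      push_cast at h1
      have h6 : (2 : GaloisField p r) = 0 := by linear_combination h1
      exact Ring.two_ne_zero hG h6
  · rw [h2, h3, one_pow] at h1
    exfalso
    push_cast at h1
    have h6 : (2 : GaloisField p r) = 0 := by linear_combination -h1
    exact Ring.two_ne_zero hG h6
  · rw [h2, h3] at h1 ⊢
    rcases Nat.even_or_odd r with h5 | h5
    · rw [h5.neg_one_pow] at h1
      exfalso
      push_cast at h1
      have h6 : (2 : GaloisField p r) = 0 := by linear_combination -h1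
      exact Ring.two_ne_zero hG h6
    · rw [h5.neg_one_pow]

end Char

section Points

variable {R : Type} [CommRing R] {N c p : ℕ} [Fact p.Prime] (φ : R →+* ZMod p)
  (h : Fin c → MvPolynomial (Fin N) R) (f : MvPolynomial (Fin N) R)

/-- The cover is `W` plus a character sum. -/
lemma coverPoints_eq (hp : p ≠ 2) {r : ℕ} (hr : 1 ≤ r) {δ : R} (hδ : φ δ ≠ 0) :
    coverPoints φ h δ f r - points φ h r =
      (quadraticChar (ZMod p) (φ δ) : ℝ) ^ r * (coverPoints φ h 1 f r - points φ h r) := by
  classical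
  have hfin := Fintype.ofFinite (GaloisField p r)
  have hG : ringChar (GaloisField p r) ≠ 2 := by
    rw [ringChar.eq (GaloisField p r) p]; exact hp
  obtain ⟨F, hF⟩ : ∃ F, F = (algebraMap (ZMod p) (GaloisField p r)).comp φ := ⟨_, rfl⟩
  obtain ⟨XW, hXW⟩ : ∃ XW : Finset (Fin N → GaloisField p r),
    XW = univ.filter fun x => x ≠ 0 ∧ ∀ i, eval₂ F x (h i) = 0 := ⟨_, rfl⟩
  obtain ⟨S, hS⟩ : ∃ S : ℤ, S = ∑ x ∈ XW, quadraticChar (GaloisField p r) (eval₂ F x f) :=
    ⟨_, rfl⟩
  have hpts : points φ h r = (XW.card : ℝ) / ((p : ℝ) ^ r - 1) := by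
    unfold points
    rw [← hF, hXW, Nat.card_eq_fintype_card, Fintype.card_subtype]
  have key : ∀ ε : R, φ ε ≠ 0 → coverPoints φ h ε f r =
      ((XW.card : ℝ) + (quadraticChar (ZMod p) (φ ε) : ℝ) ^ r * S) / ((p : ℝ) ^ r - 1) := by
    intro ε hε
    obtain ⟨e, he⟩ : ∃ e, e = algebraMap (ZMod p) (GaloisField p r) (φ ε) := ⟨_, rfl⟩
    have h1 : (Nat.card {z : (Fin N → GaloisField p r) × GaloisField p r // z.1 ≠ 0 ∧
        (∀ i, eval₂ F z.1 (h i) = 0) ∧ z.2 ^ 2 = e * eval₂ F z.1 f} : ℤ) =
        ∑ x ∈ XW, (({y : GaloisField p r | y ^ 2 = e * eval₂ F x f}.toFinset.card : ℕ) : ℤ) := by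
      rw [Nat.card_eq_fintype_card, Fintype.card_subtype, Finset.card_filter,
        Fintype.sum_prod_type, hXW, Finset.sum_filter]
      push_cast
      refine Finset.sum_congr rfl fun x _ => ?_
      by_cases hx : x ≠ 0 ∧ ∀ i, eval₂ F x (h i) = 0
      · rw [if_pos hx]
        have h2 : {y : GaloisField p r | y ^ 2 = e * eval₂ F x f}.toFinset =
            univ.filter fun y => y ^ 2 = e * eval₂ F x f := by
          ext y
          simp
        rw [h2, Finset.card_filter]
        push_cast
        refine Finset.sum_congr rfl fun y _ => ?_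
        by_cases hy : y ^ 2 = e * eval₂ F x f
        · rw [if_pos hy, if_pos ⟨hx.1, hx.2, hy⟩]
        · rw [if_neg hy, if_neg (fun h' => hy h'.2.2)]
      · rw [if_neg hx]
        apply Finset.sum_eq_zero
        intro y _
        rw [if_neg]
        rintro ⟨h1, h2, _⟩
        exact hx ⟨h1, h2⟩
    have h2 : ∀ x ∈ XW, (({y : GaloisField p r | y ^ 2 = e * eval₂ F x f}.toFinset.card : ℕ) : ℤ) =
        quadraticChar (ZMod p) (φ ε) ^ r * quadraticChar (GaloisField p r) (eval₂ F x f) + 1 := by
      intro x _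
      rw [quadraticChar_card_sqrts hG, map_mul, he, quadraticChar_ext hp hr hε]
    rw [Finset.sum_congr rfl h2, Finset.sum_add_distrib, Finset.sum_const, ← Finset.mul_sum,
      ← hS, nsmul_eq_mul, mul_one] at h1
    unfold coverPoints
    rw [← hF, ← he]
    congr 1
    have h3 : ((Nat.card {z : (Fin N → GaloisField p r) × GaloisField p r // z.1 ≠ 0 ∧
        (∀ i, eval₂ F z.1 (h i) = 0) ∧ z.2 ^ 2 = e * eval₂ F z.1 f} : ℤ) : ℝ) =
        ((quadraticChar (ZMod p) (φ ε) ^ r * S + (XW.card : ℤ) : ℤ) : ℝ) := by rw [h1]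
    push_cast at h3
    rw [h3]
    ring
  have h1 : φ (1 : R) ≠ 0 := by rw [map_one]; exact one_ne_zero
  rw [key δ hδ, key 1 h1, hpts, map_one, map_one]
  push_cast
  ring

end Points

section Map

variable {R S : Type} [CommRing R] [CommRing S] {N c p : ℕ} [Fact p.Prime] (g : R →+* S)
  (φ : S →+* ZMod p) (h : Fin c → MvPolynomial (Fin N) R) (f : MvPolynomial (Fin N) R)

lemma points_map (r : ℕ) : points φ (fun i => map g (h i)) r = points (φ.comp g) h r := by
  unfold points
  simp only [eval₂_map, RingHom.comp_assoc]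

lemma coverPoints_map (δ : S) (δ' : R) (hδ : φ (g δ') = φ δ) (r : ℕ) :
    coverPoints φ (fun i => map g (h i)) δ (map g f) r = coverPoints (φ.comp g) h δ' f r := by
  unfold coverPoints
  simp only [eval₂_map, RingHom.comp_assoc, RingHom.comp_apply, hδ]

end Map

end Pool.Agent.Helper76.DIL
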