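import Pool.Agent.Helper76.DIL.Term
import Pool.Agent.Helper76.DIL.Points
import Pool.Agent.Helper65.DIL.Density
import Pool.Agent.Helper65.DIL.Exist
import Pool.Agent.Helper65.DIL.Twist
import Pool.Agent.Helper25.FM.Main

set_option autoImplicit false

namespace Pool.Agent.Helper76.DIL

open Finset MvPolynomial Filter Topology
open Pool.Agent.Helper25.FM (TraceH2 trace_abs)

/-- The primes up to `T` modulo which all the numbers are nonzero squares. -/
noncomputable def goodPrimes {m : ℕ} (a c : Fin m → ℤ) (T : ℕ) : Finset ℕ := by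
  classical
  exact (Finset.Icc 1 T).filter fun p : ℕ =>
    p.Prime ∧ p ≠ 2 ∧ ∀ i, jacobiSym (a i) p = 1 ∧ jacobiSym (c i) p = 1

lemma Indep.ne_zero {m : ℕ} {a c : Fin m → ℤ} (h : Indep a c) (i : Fin m) :
    a i ≠ 0 ∧ c i ≠ 0 := by
  constructor
  · intro h0
    have h1 := h {i} ∅ (by
      rw [Finset.prod_singleton, Finset.prod_empty, h0, zero_mul]
      exact ⟨0, rfl⟩)
    exact Finset.singleton_ne_empty i h1.1
  · intro h0
    have h1 := h ∅ {i} (by
      rw [Finset.prod_singleton, Finset.prod_empty, h0, mul_zero]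
      exact ⟨0, rfl⟩)
    exact Finset.singleton_ne_empty i h1.2

lemma Indep.bad_ne_zero {m : ℕ} {a u v : Fin m → ℤ} (h : Indep a (norms a u v)) :
    badNumber a u v ≠ 0 := by
  unfold badNumber
  refine mul_ne_zero two_ne_zero ?_
  rw [Finset.prod_ne_zero_iff]
  intro i _
  exact mul_ne_zero (h.ne_zero i).1 (h.ne_zero i).2

/-- The averages of the twist by `δ` and of the base differ by little: abstract form. -/
theorem close {m : ℕ} (a u v : Fin m → ℤ) (hI : Indep a (norms a u v))
    (d : ℕ) (M : ℝ) (hM0 : 0 ≤ M) (ε : ℝ) (hε : 0 < ε) :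
    ∃ T₀ : ℕ,
    ∀ (R : Type) [CommRing R] (_b : Module.Basis (Fin d) ℤ R) (P : ∀ p : ℕ, Set (R →+* ZMod p))
      (βW βV : ∀ p : ℕ, (R →+* ZMod p) → ℝ) (βD : ∀ p : ℕ, (Roots R a →+* ZMod p) → ℝ),
      (∀ (p : ℕ) [Fact p.Prime], ¬ (p : ℤ) ∣ badNumber a u v →
        (∀ φ ∈ P p, |βV p φ - βW p φ| ≤ M * p) ∧ Rel a u v P βW βV βD p) →
      ∀ T : ℕ, T₀ ≤ T →
        |average (above a P) (badNumber a u v) βD T -
          average (above a P) (badNumber a u v) (restrict a βW) T| ≤ d * M / 2 ^ m + ε := by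
  classical
  obtain ⟨L, hL⟩ : ∃ L : ℝ, L = 2 ^ m * (d * M) := ⟨_, rfl⟩
  have hL0 : 0 ≤ L := by rw [hL]; positivity
  obtain ⟨T₁, hT₁⟩ := Pool.Agent.Helper65.DIL.density a (norms a u v) hI (ε / (L + 1))
    (by positivity)
  refine ⟨max T₁ 1, ?_⟩
  intro R _ b P βW βV βD H T hT
  have hTT₁ : T₁ ≤ T := (le_max_left _ _).trans hT
  have hT0 : 0 < T := (le_max_right _ _).trans hT
  have hT0' : (0 : ℝ) < T := by exact_mod_cast hT0
  have hmain : |∑ p ∈ (Finset.Icc 1 T).filter
      (fun p : ℕ => p.Prime ∧ ¬ (p : ℤ) ∣ badNumber a u v),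
      (term (above a P) βD p - term (above a P) (restrict a βW) p)| ≤
      L * (∑ p ∈ goodPrimes a (norms a u v) T, Real.log p) := by
    calc _ ≤ ∑ p ∈ (Finset.Icc 1 T).filter
          (fun p : ℕ => p.Prime ∧ ¬ (p : ℤ) ∣ badNumber a u v),
          |term (above a P) βD p - term (above a P) (restrict a βW) p| :=
          Finset.abs_sum_le_sum_abs _ _
      _ ≤ ∑ p ∈ (Finset.Icc 1 T).filter
          (fun p : ℕ => p.Prime ∧ ¬ (p : ℤ) ∣ badNumber a u v),
          (if p ∈ goodPrimes a (norms a u v) T then L * Real.log p else 0) := by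
          refine Finset.sum_le_sum fun p hp => ?_
          obtain ⟨h1, hp1, hp2⟩ := Finset.mem_filter.1 hp
          have hF : Fact p.Prime := ⟨hp1⟩
          obtain ⟨h2, _, _⟩ := ne_zero_of_bad a u v hp2
          by_cases hg : ∀ i, jacobiSym (a i) p = 1 ∧ jacobiSym (norms a u v i) p = 1
          · have hmem : p ∈ goodPrimes a (norms a u v) T := by
              unfold goodPrimes
              rw [Finset.mem_filter]
              exact ⟨h1, hp1, h2, hg⟩
            rw [if_pos hmem, hL]
            exact abs_term_le a u v P βW βV βD b hM0 (H p hp2).1 (H p hp2).2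
          · rw [term_eq_zero a u v P βW βV βD b hp2 hg (H p hp2).2, abs_zero]
            have hl : 0 ≤ Real.log (p : ℝ) := Real.log_natCast_nonneg p
            split_ifs
            · positivity
            · exact le_rfl
      _ ≤ _ := by
          rw [Finset.mul_sum, ← Finset.sum_filter]
          apply Finset.sum_le_sum_of_subset_of_nonneg
          · intro p hp
            exact (Finset.mem_filter.1 hp).2
          · intro p _ _
            have hl : 0 ≤ Real.log (p : ℝ) := Real.log_natCast_nonneg p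
            positivity
  have hA : |average (above a P) (badNumber a u v) βD T -
      average (above a P) (badNumber a u v) (restrict a βW) T| ≤
      L * ((1 / 4 ^ m + ε / (L + 1)) * T) / T := by
    have h0 : average (above a P) (badNumber a u v) βD T -
        average (above a P) (badNumber a u v) (restrict a βW) T =
        (∑ p ∈ (Finset.Icc 1 T).filter
          (fun p : ℕ => p.Prime ∧ ¬ (p : ℤ) ∣ badNumber a u v),
          (term (above a P) βD p - term (above a P) (restrict a βW) p)) / T := by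
      rw [Finset.sum_sub_distrib, sub_div]
      rfl
    rw [h0, abs_div, abs_of_pos hT0']
    apply div_le_div_of_nonneg_right _ hT0'.le
    refine hmain.trans ?_
    apply mul_le_mul_of_nonneg_left _ hL0
    have h1 := hT₁ T hTT₁
    refine le_trans (le_of_eq ?_) h1
    unfold goodPrimes
    rfl
  refine hA.trans ?_
  have h1 : L * ((1 / 4 ^ m + ε / (L + 1)) * T) / T = L / 4 ^ m + L * ε / (L + 1) := by
    field_simp
  have h2 : L / 4 ^ m = d * M / 2 ^ m := by
    rw [hL]
    have h3 : (4 : ℝ) ^ m = 2 ^ m * 2 ^ m := by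
      rw [← mul_pow]; norm_num
    rw [h3]
    field_simp
  have h3 : L * ε / (L + 1) ≤ ε := by
    rw [div_le_iff₀ (by positivity)]
    nlinarith
  rw [h1, h2]
  linarith

/-- The relation between the traces, from the numbers of points. -/
lemma rel_of_points {R : Type} [CommRing R] {m : ℕ} (a u v : Fin m → ℤ) {N c : ℕ}
    (h : Fin c → MvPolynomial (Fin N) R) (f : MvPolynomial (Fin N) R)
    (P : ∀ p : ℕ, Set (R →+* ZMod p)) (βW βV : ∀ p : ℕ, (R →+* ZMod p) → ℝ)
    (βD : ∀ p : ℕ, (Roots R a →+* ZMod p) → ℝ) {M : ℕ} {p : ℕ} [hp : Fact p.Prime]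
    (hbad : ¬ (p : ℤ) ∣ badNumber a u v)
    (hW : ∀ φ ∈ P p, TraceH2 p (points φ h) M (βW p φ))
    (hV : ∀ φ ∈ P p, TraceH2 p (coverPoints φ h 1 f) M (βV p φ))
    (hD : ∀ φ ∈ above a P p, TraceH2 p (coverPoints φ (fun i => map (incl R a) (h i))
      (delta R a u v) (map (incl R a) f)) M (βD p φ)) :
    Rel a u v P βW βV βD p := by
  intro φ hφ
  have hδ := delta_ne_zero a u v hbad φ
  obtain ⟨hp2, _, _⟩ := ne_zero_of_bad a u v hbad
  obtain ⟨e, he⟩ : ∃ e : ℝ, e = (quadraticChar (ZMod p) (φ (delta R a u v)) : ℝ) := ⟨_, rfl⟩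
  have he1 : e = 1 ∨ e = -1 := by
    rw [he]
    rcases quadraticChar_dichotomy (F := ZMod p) hδ with h1 | h1
    · left; rw [h1]; norm_num
    · right; rw [h1]; norm_num
  rw [← he]
  have hq : (1 : ℝ) < (p : ℝ) := by exact_mod_cast hp.out.one_lt
  refine Pool.Agent.Helper65.DIL.trace_twist hq (hV _ hφ) (hW _ hφ) (hD φ hφ) he1 ?_
  intro r hr
  have h1 := coverPoints_eq φ (fun i => map (incl R a) (h i)) (map (incl R a) f) hp2 hr hδ
  rw [points_map] at h1
  rw [← he] at h1
  have h2 : coverPoints φ (fun i => map (incl R a) (h i)) 1 (map (incl R a) f) r =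
      coverPoints (φ.comp (incl R a)) h 1 f r := by
    apply coverPoints_map
    rw [map_one]
  rw [h2] at h1
  exact h1

end Pool.Agent.Helper76.DIL
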