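import Pool.Agent.Helper76.DIL.Sum
import Pool.Agent.Helper29.LN.Coord

set_option autoImplicit false

namespace Pool.Agent.Helper76.DIL

open Finset MvPolynomial

section Sum

variable {R : Type} [CommRing R] {m d : ℕ} (a : Fin m → ℤ) {p : ℕ} [Fact p.Prime]

open Classical in
/-- Sums over the primes above. -/
lemma finsum_above (P : ∀ p : ℕ, Set (R →+* ZMod p))
    (G : (R →+* ZMod p) → (Fin m → ZMod p) → ℝ) [Fintype (R →+* ZMod p)] :
    ∑ᶠ φ ∈ above a P p, G (φ.comp (incl R a)) (fun i => φ (root R a i)) =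
      ∑ φ ∈ (univ : Finset (R →+* ZMod p)).filter (fun φ => φ ∈ P p),
        ∑ s ∈ Fintype.piFinset fun i =>
          (univ : Finset (ZMod p)).filter fun s => s ^ 2 = (a i : ZMod p), G φ s := by
  rw [finsum_mem_def]
  have h1 : ∑ᶠ φ : Roots R a →+* ZMod p, (above a P p).indicator
      (fun φ => G (φ.comp (incl R a)) (fun i => φ (root R a i))) φ =
      ∑ᶠ z : {z : (R →+* ZMod p) × (Fin m → ZMod p) // ∀ i, z.2 i ^ 2 = (a i : ZMod p)},
        if z.1.1 ∈ P p then G z.1.1 z.1.2 else 0 := by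
    rw [← finsum_comp_equiv (homEquiv a p)]
    apply finsum_congr
    intro φ
    rw [Set.indicator_apply]
    rfl
  rw [h1, finsum_eq_sum_of_fintype]
  have h2 : ∑ z : {z : (R →+* ZMod p) × (Fin m → ZMod p) // ∀ i, z.2 i ^ 2 = (a i : ZMod p)},
        (if z.1.1 ∈ P p then G z.1.1 z.1.2 else 0) =
      ∑ z ∈ (univ : Finset ((R →+* ZMod p) × (Fin m → ZMod p))).filter
        fun z => ∀ i, z.2 i ^ 2 = (a i : ZMod p), (if z.1 ∈ P p then G z.1 z.2 else 0) :=
    (Finset.sum_subtype ((univ : Finset ((R →+* ZMod p) × (Fin m → ZMod p))).filter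
      fun z => ∀ i, z.2 i ^ 2 = (a i : ZMod p)) (fun z => by rw [Finset.mem_filter]; simp)
      fun z => if z.1 ∈ P p then G z.1 z.2 else 0).symm
  rw [h2, Finset.sum_filter, Fintype.sum_prod_type, Finset.sum_filter]
  refine Finset.sum_congr rfl fun φ _ => ?_
  by_cases hφ : φ ∈ P p
  · simp only [if_pos hφ]
    rw [← Finset.sum_filter]
    apply Finset.sum_congr _ fun _ _ => rfl
    ext s
    rw [Finset.mem_filter, Fintype.mem_piFinset]
    simp
  · simp [if_neg hφ]

end Sum

section Term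

variable {R : Type} [CommRing R] {m d : ℕ} (a u v : Fin m → ℤ)
  (P : ∀ p : ℕ, Set (R →+* ZMod p)) (βW βV : ∀ p : ℕ, (R →+* ZMod p) → ℝ)
  (βD : ∀ p : ℕ, (Roots R a →+* ZMod p) → ℝ)

/-- The term of an average. -/
noncomputable def term {S : Type} [CommRing S] (P : ∀ p : ℕ, Set (S →+* ZMod p))
    (β : ∀ p : ℕ, (S →+* ZMod p) → ℝ) (p : ℕ) : ℝ :=
  ∑ᶠ φ ∈ P p, β p φ * Real.log p / p

open Classical in
/-- The sum of the minus parts. -/
noncomputable def mi (p : ℕ) [Fintype (R →+* ZMod p)] : ℝ :=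
  ∑ φ ∈ (univ : Finset (R →+* ZMod p)).filter (fun φ => φ ∈ P p), (βV p φ - βW p φ) / p

/-- The relation between the traces. -/
def Rel (p : ℕ) [Fact p.Prime] : Prop :=
  ∀ φ ∈ above a P p, βD p φ - βW p (φ.comp (incl R a)) =
    (quadraticChar (ZMod p) (φ (delta R a u v)) : ℝ) *
      (βV p (φ.comp (incl R a)) - βW p (φ.comp (incl R a)))

lemma term_sub {p : ℕ} [Fact p.Prime] [Fintype (R →+* ZMod p)]
    (h : Rel a u v P βW βV βD p) :
    term (above a P) βD p - term (above a P) (restrict a βW) p =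
      (total (p := p) a u v : ℝ) * (mi P βW βV p * Real.log p) := by
  classical
  have h1 : term (above a P) βD p =
      ∑ φ ∈ (univ : Finset (R →+* ZMod p)).filter (fun φ => φ ∈ P p),
        ∑ s ∈ Fintype.piFinset fun i =>
          (univ : Finset (ZMod p)).filter fun s => s ^ 2 = (a i : ZMod p),
          (βW p φ + (quadraticChar (ZMod p)
            (∏ i, ((u i : ZMod p) + (v i : ZMod p) * s i)) : ℝ) * (βV p φ - βW p φ)) *
            Real.log p / p := by
    rw [← finsum_above a P (fun φ s => (βW p φ + (quadraticChar (ZMod p)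
            (∏ i, ((u i : ZMod p) + (v i : ZMod p) * s i)) : ℝ) * (βV p φ - βW p φ)) *
            Real.log p / p)]
    unfold term
    apply finsum_congr
    intro φ
    apply finsum_congr
    intro hφ
    have h2 := h φ hφ
    rw [map_delta] at h2
    rw [← h2]
    ring
  have h2 : term (above a P) (restrict a βW) p =
      ∑ φ ∈ (univ : Finset (R →+* ZMod p)).filter (fun φ => φ ∈ P p),
        ∑ s ∈ Fintype.piFinset fun i =>
          (univ : Finset (ZMod p)).filter fun s => s ^ 2 = (a i : ZMod p),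
          βW p φ * Real.log p / p := by
    rw [← finsum_above a P (fun φ _ => βW p φ * Real.log p / p)]
    rfl
  rw [h1, h2, ← Finset.sum_sub_distrib]
  have h3 : ∀ φ ∈ (univ : Finset (R →+* ZMod p)).filter (fun φ => φ ∈ P p),
      ∑ s ∈ Fintype.piFinset (fun i =>
          (univ : Finset (ZMod p)).filter fun s => s ^ 2 = (a i : ZMod p)),
          (βW p φ + (quadraticChar (ZMod p)
            (∏ i, ((u i : ZMod p) + (v i : ZMod p) * s i)) : ℝ) * (βV p φ - βW p φ)) *
            Real.log p / p -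
      ∑ s ∈ Fintype.piFinset (fun i =>
          (univ : Finset (ZMod p)).filter fun s => s ^ 2 = (a i : ZMod p)),
          βW p φ * Real.log p / p =
      (total (p := p) a u v : ℝ) * ((βV p φ - βW p φ) / p * Real.log p) := by
    intro φ _
    rw [← Finset.sum_sub_distrib, total_eq_sum]
    push_cast
    rw [Finset.sum_mul]
    refine Finset.sum_congr rfl fun s _ => ?_
    ring
  rw [Finset.sum_congr rfl h3, ← Finset.mul_sum, ← Finset.sum_mul]
  rfl

lemma abs_mi_le (b : Module.Basis (Fin d) ℤ R) {M : ℝ} (hM0 : 0 ≤ M)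
    {p : ℕ} [hp : Fact p.Prime] [Fintype (R →+* ZMod p)]
    (hM : ∀ φ ∈ P p, |βV p φ - βW p φ| ≤ M * p) : |mi P βW βV p| ≤ d * M := by
  classical
  have hp0 : (0 : ℝ) < p := by exact_mod_cast hp.out.pos
  unfold mi
  calc _ ≤ ∑ φ ∈ (univ : Finset (R →+* ZMod p)).filter (fun φ => φ ∈ P p),
        |(βV p φ - βW p φ) / p| := Finset.abs_sum_le_sum_abs _ _
    _ ≤ ∑ φ ∈ (univ : Finset (R →+* ZMod p)).filter (fun φ => φ ∈ P p), M := by
        refine Finset.sum_le_sum fun φ hφ => ?_
        rw [abs_div, abs_of_pos hp0, div_le_iff₀ hp0]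
        exact hM φ (Finset.mem_filter.1 hφ).2
    _ ≤ ∑ φ : R →+* ZMod p, M :=
        Finset.sum_le_sum_of_subset_of_nonneg (Finset.filter_subset _ _) fun _ _ _ => hM0
    _ = Fintype.card (R →+* ZMod p) * M := by
        rw [Finset.sum_const, Finset.card_univ, nsmul_eq_mul]
    _ ≤ d * M := mul_le_mul_of_nonneg_right
        (by exact_mod_cast Pool.Agent.Helper29.LN.card_hom_le b) hM0

/-- The bound for a single prime. -/
lemma abs_term_le (b : Module.Basis (Fin d) ℤ R) {M : ℝ} (hM0 : 0 ≤ M)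
    {p : ℕ} [hp : Fact p.Prime] (hM : ∀ φ ∈ P p, |βV p φ - βW p φ| ≤ M * p)
    (h : Rel a u v P βW βV βD p) :
    |term (above a P) βD p - term (above a P) (restrict a βW) p| ≤
      2 ^ m * (d * M) * Real.log p := by
  have hfin : Finite (R →+* ZMod p) := Pool.Agent.Helper29.LN.hom_finite b
  have hft := Fintype.ofFinite (R →+* ZMod p)
  have hl : 0 ≤ Real.log (p : ℝ) := Real.log_natCast_nonneg p
  rw [term_sub a u v P βW βV βD h, abs_mul, abs_mul, abs_of_nonneg hl, mul_assoc]
  have h1 : |((total (p := p) a u v : ℤ) : ℝ)| ≤ 2 ^ m := by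
    rw [← Int.cast_abs]
    exact_mod_cast abs_total_le (p := p) a u v
  have h2 := abs_mi_le P βW βV b hM0 hM
  exact mul_le_mul h1 (mul_le_mul_of_nonneg_right h2 hl) (by positivity) (by positivity)

lemma ne_zero_of_bad {p : ℕ} [hp : Fact p.Prime] (hbad : ¬ (p : ℤ) ∣ badNumber a u v) :
    p ≠ 2 ∧ (∀ i, ((a i : ℤ) : ZMod p) ≠ 0) ∧ ∀ i, ((norms a u v i : ℤ) : ZMod p) ≠ 0 := by
  refine ⟨?_, ?_, ?_⟩
  · rintro rfl
    exact hbad (Dvd.intro _ rfl)
  · intro i h0
    apply hbad
    rw [ZMod.intCast_zmod_eq_zero_iff_dvd] at h0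
    exact ((h0.mul_right _).trans (Finset.dvd_prod_of_mem (fun i => a i * norms a u v i)
      (Finset.mem_univ i))).mul_left _
  · intro i h0
    apply hbad
    rw [ZMod.intCast_zmod_eq_zero_iff_dvd] at h0
    exact ((h0.mul_left _).trans (Finset.dvd_prod_of_mem (fun i => a i * norms a u v i)
      (Finset.mem_univ i))).mul_left _

lemma delta_ne_zero {p : ℕ} [hp : Fact p.Prime] (hbad : ¬ (p : ℤ) ∣ badNumber a u v)
    (φ : Roots R a →+* ZMod p) : φ (delta R a u v) ≠ 0 := by
  obtain ⟨_, _, h3⟩ := ne_zero_of_bad a u v hbad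
  rw [map_delta, Finset.prod_ne_zero_iff]
  intro i _ h0
  apply h3 i
  have h1 : φ (root R a i) ^ 2 = ((a i : ℤ) : ZMod p) := by
    rw [← map_pow, root_sq, map_intCast]
  unfold norms
  push_cast
  rw [← h1]
  linear_combination ((u i : ZMod p) - (v i : ZMod p) * φ (root R a i)) * h0

lemma term_eq_zero (b : Module.Basis (Fin d) ℤ R) {p : ℕ} [hp : Fact p.Prime]
    (hbad : ¬ (p : ℤ) ∣ badNumber a u v)
    (hgood : ¬ ∀ i, jacobiSym (a i) p = 1 ∧ jacobiSym (norms a u v i) p = 1)
    (h : Rel a u v P βW βV βD p) :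
    term (above a P) βD p - term (above a P) (restrict a βW) p = 0 := by
  have hfin : Finite (R →+* ZMod p) := Pool.Agent.Helper29.LN.hom_finite b
  have hft := Fintype.ofFinite (R →+* ZMod p)
  obtain ⟨h1, h2, h3⟩ := ne_zero_of_bad a u v hbad
  rw [term_sub a u v P βW βV βD h, total_eq_zero a u v h1 h2 h3 hgood, Int.cast_zero, zero_mul]

end Term

end Pool.Agent.Helper76.DIL
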